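import Pool.Agent.R531.Pooling.Final

/-!
# One quality and out-degrees at most two: the pooling problem is strongly NP-hard

Reduction from the independent set problem in cubic graphs. There is one pool for every vertex,
with two outputs of its own; every pair of vertices has an input that feeds the two pools, and every
vertex has an input that feeds its pool only.
-/

set_option autoImplicit false

namespace Pool.Agent.Results.MP_743dc4_lc.OneQualityOutDegreeTwo

open Pool.Agent.NPC Pool.Agent.R531.Pooling

/-- **The pooling problem with one quality in which every input and every pool has out-degree at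
most two is strongly NP-hard.** First part: many-one reductions from all languages in NP to the
decision version, with integer data bounded by eight times the number of vertices. Second part: a
polynomial-time algorithm for the optimum value puts NP into P. -/
theorem result :
    (∀ L : Set (List Bool), InNP L → ∃ f : List Bool → Instance × ℚ,
      PolyTime (fun w => bits (f w)) ∧ ∀ w,
        (OutDegreeTwo (f w).1 ∧
          SmallNumbers (f w).1 (8 * ((f w).1.nI + (f w).1.nL + (f w).1.nJ))) ∧
        IsSmall (8 * ((f w).1.nI + (f w).1.nL + (f w).1.nJ)) (f w).2 ∧
        (w ∈ L ↔ ∃ F, Feasible (f w).1.data F ∧ cost (f w).1.data F ≤ ((f w).2 : ℝ))) ∧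
    ∀ A : List Bool → List Bool, PolyTime A →
      (∀ P : Instance, (OutDegreeTwo P ∧ SmallNumbers P (8 * (P.nI + P.nL + P.nJ))) →
        ∀ v : ℚ, IsOptimum P v → A (bits P) = bits v) →
      ∀ L : Set (List Bool), InNP L → InP L :=
  outWorks.hard poly_outBase
    (C := fun P => OutDegreeTwo P ∧ SmallNumbers P (8 * (P.nI + P.nL + P.nJ)))
    (fun G => ⟨outInst_outDegree G, outInst_small G⟩)
    (D := fun P q => IsSmall (8 * (P.nI + P.nL + P.nJ)) q)
    outInst_threshold

end Pool.Agent.Results.MP_743dc4_lc.OneQualityOutDegreeTwo
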